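import Pool.Agent.TH285.AB.Pair

/-!
# Many pairs of smooth numbers that are close together
-/

set_option autoImplicit false

open Finset Nat

namespace Pool.Agent.TH285.AB

open Pool.Agent.H390R2

/-- primes dividing `num e` have a positive exponent -/
lemma pos_of_dvd_num {m : ℕ} (e : {p // p ∈ primesLE m} → ℤ) (p : {p // p ∈ primesLE m})
    (h : (p : ℕ) ∣ num e) : 0 < e p := by
  have hp := prime_of_mem_primesLE p.2
  unfold num at h
  rw [Prime.dvd_finsetProd_iff hp.prime] at h
  obtain ⟨q, _, hq⟩ := h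
  by_contra hcon
  have h1 := hp.dvd_of_dvd_pow hq
  have h2 := (Nat.prime_dvd_prime_iff_eq hp (prime_of_mem_primesLE q.2)).mp h1
  have h3 : p = q := Subtype.ext h2
  subst h3
  have h4 : (e p).toNat = 0 := by omega
  rw [h4, pow_zero] at hq
  exact hp.one_lt.ne' (Nat.dvd_one.mp hq)

lemma loglog_ge : -1 ≤ Real.log (Real.log 2) := by
  rw [Real.le_log_iff_exp_le (Real.log_pos one_lt_two)]
  have h1 := Real.exp_one_gt_d9
  rw [Real.exp_neg]
  have h2 : (Real.exp 1)⁻¹ ≤ (2.7 : ℝ)⁻¹ := inv_anti₀ (by norm_num) (by linarith)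
  have h3 := Real.log_two_gt_d9
  refine h2.trans ?_
  norm_num
  linarith

theorem exists_many {m N D : ℕ} {lam : ℝ} (hN : 0 < N) (hlam : 0 < lam)
    (hlat : ∀ S : Finset {p // p ∈ primesLE m}, S.card ≤ D → ∀ W : {p // p ∈ primesLE m} → ℤ,
      ∃ e : {p // p ∈ primesLE m} → ℤ, e ≠ 0 ∧ (∀ p ∈ S, e p = 0) ∧
        (N : ℤ) ∣ ∑ i, W i * e i ∧
        ∑ i : {p // p ∈ primesLE m}, |(e i : ℝ)| * Real.log (i : ℕ) ≤ lam)
    (herr : lam * (lam + 1) / (N * Real.log 2) ≤ 1) :
    ∃ Q : Finset (ℕ × ℕ), D ≤ Q.card ∧ ∀ q ∈ Q, 0 < q.1 ∧ q.1 < q.2 ∧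
        q.1.primeFactors ⊆ primesLE m ∧
        q.2.primeFactors ⊆ primesLE m ∧ Nat.Coprime q.1 q.2 ∧ Real.log q.2 ≤ (lam + 1) / 2 ∧
        (Real.log N + Real.log (Real.log 2) - Real.log (lam * (lam + 1))) +
          Real.log (q.2 - q.1 : ℕ) ≤ Real.log q.2 := by
  classical
  have hl2 : (0 : ℝ) < Real.log 2 := Real.log_pos one_lt_two
  have hN' : (0 : ℝ) < N := by exact_mod_cast hN
  have main : ∀ j ≤ D, ∃ Q : Finset (ℕ × ℕ), Q.card = j ∧ ∀ q ∈ Q, 0 < q.1 ∧ q.1 < q.2 ∧
        q.1.primeFactors ⊆ primesLE m ∧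
        q.2.primeFactors ⊆ primesLE m ∧ Nat.Coprime q.1 q.2 ∧ Real.log q.2 ≤ (lam + 1) / 2 ∧
        (Real.log N + Real.log (Real.log 2) - Real.log (lam * (lam + 1))) +
          Real.log (q.2 - q.1 : ℕ) ≤ Real.log q.2 := by
    intro j
    induction j with
    | zero => exact fun _ => ⟨∅, rfl, fun q hq => absurd hq (Finset.notMem_empty q)⟩
    | succ j ih =>
      intro hj
      obtain ⟨Q, hQc, hQ⟩ := ih (by omega)
      have hf : ∀ q ∈ Q, ∃ p : {p // p ∈ primesLE m}, (p : ℕ) ∣ q.2 := by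
        intro q hq
        obtain ⟨h1, h2, -, h4, -⟩ := hQ q hq
        have h5 : q.2 ≠ 1 := by omega
        refine ⟨⟨q.2.minFac, h4 (Nat.mem_primeFactors.mpr
          ⟨Nat.minFac_prime h5, Nat.minFac_dvd _, by omega⟩)⟩, Nat.minFac_dvd _⟩
      choose f hf using hf
      set S : Finset {p // p ∈ primesLE m} := Q.attach.image (fun q => f q.1 q.2) with hS
      have hScard : S.card ≤ D := by
        refine Finset.card_image_le.trans ?_
        rw [Finset.card_attach, hQc]
        omega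
      obtain ⟨e, he, hPe, hsum, hl⟩ := exists_vec (P := fun e => ∀ p ∈ S, e p = 0) hN hlam
        (fun W => hlat S hScard W)
      obtain ⟨x, y, hx, hxy, hxf, hyf, hcop, hnum, hlogy, hdiff⟩ := exists_pair e he
      set l : ℝ := |∑ p : {p // p ∈ primesLE m}, (e p : ℝ) * Real.log (p : ℕ)| with hldef
      have hl1 : l ≤ 1 := hl.trans herr
      have hy0 : (0 : ℝ) < y := by exact_mod_cast (by omega : 0 < y)
      have hd0 : (0 : ℝ) < (y - x : ℕ) := by exact_mod_cast (by omega : 0 < y - x)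
      have hl0 : 0 < l := by
        by_contra hcon
        have : (y : ℝ) * l ≤ 0 := mul_nonpos_of_nonneg_of_nonpos hy0.le (not_lt.mp hcon)
        linarith
      have hnotmem : (x, y) ∉ Q := by
        intro hmem
        have h1 := hf (x, y) hmem
        have h2 : f (x, y) hmem ∈ S :=
          Finset.mem_image.mpr ⟨⟨(x, y), hmem⟩, Finset.mem_attach _ _, rfl⟩
        have h3 := hPe _ h2
        simp only at h1
        rcases hnum with ⟨-, h4⟩ | ⟨-, h4⟩
        · have h5 := pos_of_dvd_num _ _ (h1.trans (dvd_of_eq h4))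
          rw [Pi.neg_apply, h3] at h5
          omega
        · have h5 := pos_of_dvd_num _ _ (h1.trans (dvd_of_eq h4))
          rw [h3] at h5
          omega
      refine ⟨insert (x, y) Q, by rw [Finset.card_insert_of_notMem hnotmem, hQc], ?_⟩
      intro q hq
      rcases Finset.mem_insert.mp hq with rfl | hq
      · refine ⟨hx, hxy, hxf, hyf, hcop, ?_, ?_⟩
        · simp only
          rw [hlogy]
          linarith
        · simp only
          have h1 : Real.log (y - x : ℕ) ≤ Real.log y + Real.log l := by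
            rw [← Real.log_mul hy0.ne' hl0.ne']
            exact Real.log_le_log hd0 hdiff
          have h2 : Real.log l ≤ Real.log (lam * (lam + 1)) - Real.log N - Real.log (Real.log 2) := by
            have h3 := Real.log_le_log hl0 hl
            rw [Real.log_div (by positivity) (by positivity), Real.log_mul hN'.ne' hl2.ne'] at h3
            linarith
          linarith
      · exact hQ q hq
  obtain ⟨Q, hQc, hQ⟩ := main D le_rfl
  exact ⟨Q, hQc.ge, hQ⟩

/-- short vectors with prescribed zeros -/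
theorem lat_of {m N D n0 : ℕ} {B0 κ : ℝ} (hκ : 0 ≤ κ) (hB0 : 0 ≤ B0)
    (hlat : ∀ (ι : Type) [Fintype ι] (N : ℕ) (W : ι → ℤ),
      n0 ≤ Fintype.card ι → 0 < N → B0 * Fintype.card ι ≤ Real.log N →
      ∃ e : ι → ℤ, e ≠ 0 ∧ (N : ℤ) ∣ ∑ i, W i * e i ∧
        ∑ i, |(e i : ℝ)| ≤ κ * Fintype.card ι * Real.exp (Real.log N / Fintype.card ι))
    (h1 : n0 + D + 1 ≤ Nat.primeCounting m) (hN : 0 < N)
    (h2 : B0 * Nat.primeCounting m ≤ Real.log N)
    (S : Finset {p // p ∈ primesLE m}) (hS : S.card ≤ D) (W : {p // p ∈ primesLE m} → ℤ) :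
    ∃ e : {p // p ∈ primesLE m} → ℤ, e ≠ 0 ∧ (∀ p ∈ S, e p = 0) ∧ (N : ℤ) ∣ ∑ i, W i * e i ∧
      ∑ i, |(e i : ℝ)| ≤ κ * Nat.primeCounting m *
        Real.exp (Real.log N / ((Nat.primeCounting m : ℝ) - D)) := by
  classical
  have hcard : Fintype.card {i : {p // p ∈ primesLE m} // i ∉ S} = Nat.primeCounting m - S.card := by
    rw [Fintype.card_subtype_compl, Fintype.card_coe, ← Nat.primesLE_card_eq_primeCounting]
    simp
  have hSn : S.card ≤ Nat.primeCounting m := by omega
  have hcardR : (Fintype.card {i : {p // p ∈ primesLE m} // i ∉ S} : ℝ) =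
      (Nat.primeCounting m : ℝ) - S.card := by
    rw [hcard, Nat.cast_sub hSn]
  have hSD : (S.card : ℝ) ≤ D := by exact_mod_cast hS
  have hnD : (D : ℝ) + 1 ≤ Nat.primeCounting m := by
    have : D + 1 ≤ Nat.primeCounting m := by omega
    exact_mod_cast this
  obtain ⟨e', he', hdvd, hle⟩ := hlat {i : {p // p ∈ primesLE m} // i ∉ S} N (fun i => W i)
    (by rw [hcard]; omega) hN (by
      rw [hcardR]
      refine le_trans ?_ h2
      refine mul_le_mul_of_nonneg_left ?_ hB0
      have : (0 : ℝ) ≤ S.card := by positivity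
      linarith)
  set e : {p // p ∈ primesLE m} → ℤ := fun i => if h : i ∉ S then e' ⟨i, h⟩ else 0 with hedef
  have he1 : ∀ i : {i : {p // p ∈ primesLE m} // i ∉ S}, e i = e' i := by
    intro i
    rw [hedef]
    simp only
    rw [dif_pos i.2]
  have he0 : ∀ i ∈ S, e i = 0 := by
    intro i hi
    rw [hedef]
    simp only
    rw [dif_neg (not_not.mpr hi)]
  refine ⟨e, ?_, he0, ?_, ?_⟩
  · obtain ⟨i, hi⟩ := Function.ne_iff.mp he'
    intro h
    apply hi
    rw [← he1 i, h]
    rfl
  · have hk : ∑ i, W i * e i = ∑ i : {i : {p // p ∈ primesLE m} // i ∉ S}, W i * e' i := by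
      rw [← Fintype.sum_subtype_add_sum_subtype (fun i => i ∉ S) (fun i => W i * e i)]
      have : ∑ i : {i : {p // p ∈ primesLE m} // ¬ i ∉ S}, W i * e i = 0 := by
        refine Finset.sum_eq_zero fun i _ => ?_
        rw [he0 i (not_not.mp i.2), mul_zero]
      rw [this, add_zero]
      exact Finset.sum_congr rfl fun i _ => by rw [he1 i]
    rw [hk]
    exact hdvd
  · have hk : ∑ i, |(e i : ℝ)| = ∑ i : {i : {p // p ∈ primesLE m} // i ∉ S}, |(e' i : ℝ)| := by
      rw [← Fintype.sum_subtype_add_sum_subtype (fun i => i ∉ S) (fun i => |(e i : ℝ)|)]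
      have : ∑ i : {i : {p // p ∈ primesLE m} // ¬ i ∉ S}, |(e i : ℝ)| = 0 := by
        refine Finset.sum_eq_zero fun i _ => ?_
        rw [he0 i (not_not.mp i.2)]
        simp
      rw [this, add_zero]
      exact Finset.sum_congr rfl fun i _ => by rw [he1 i]
    rw [hk]
    refine hle.trans ?_
    rw [hcardR]
    have h0 : (0 : ℝ) ≤ S.card := by positivity
    have hlogN : 0 ≤ Real.log N := Real.log_natCast_nonneg N
    have h3 : (0 : ℝ) < (Nat.primeCounting m : ℝ) - D := by linarith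
    have h4 : (Nat.primeCounting m : ℝ) - D ≤ (Nat.primeCounting m : ℝ) - S.card := by linarith
    have h5 : Real.log N / ((Nat.primeCounting m : ℝ) - S.card) ≤
        Real.log N / ((Nat.primeCounting m : ℝ) - D) := div_le_div_of_nonneg_left hlogN h3 h4
    have h6 : (Nat.primeCounting m : ℝ) - S.card ≤ Nat.primeCounting m := by linarith
    have h7 : (0 : ℝ) ≤ (Nat.primeCounting m : ℝ) - S.card := by linarith
    gcongr

end Pool.Agent.TH285.AB
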