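import Mathlib

/-!
# The optimisation in the `n`-term problem
-/

set_option autoImplicit false

namespace Pool.Agent.TH285.AB

lemma opt {k : ℕ} (hk : 1 ≤ k) {ε K κ n m L J X1 : ℝ} (hε : 0 < ε) (hε1 : ε ≤ 1 / 4)
    (hK0 : 0 ≤ K) (hκ : 0 < κ)
    (hK : K ^ (k + 1) * ((1 + 2 * ε) * k * (κ / 2) * Real.exp (2 * ε) * Real.exp 1) ^ k ≤
      (1 - ε) * ((k + 1 - ε) * (1 + 1 / k - ε)) ^ (k + 1))
    (hn : 0 < n) (hm : 0 < m) (hL : L = Real.log m) (hL0 : 0 < L)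
    (hgood : (1 - ε) * m / L ≤ n * J)
    (hX1 : X1 = (1 + 2 * ε) * k * (κ / 2) * (n * L) *
      Real.exp ((L - J + (k + 1)) / k + 2 * ε)) :
    K * X1 ^ ((k : ℝ) / (k + 1)) ≤ ((k + 1 - ε) * n) * ((1 + 1 / k - ε) * L) := by
  have hkR : (1 : ℝ) ≤ k := by exact_mod_cast hk
  have hk0 : (0 : ℝ) < k := by linarith
  have h1ε : 0 < 1 - ε := by linarith
  have hX0 : 0 < X1 := by rw [hX1]; positivity
  have ha1 : (0 : ℝ) < k + 1 - ε := by linarith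
  have ha2 : (0 : ℝ) < 1 + 1 / k - ε := by
    have : (0 : ℝ) < 1 / k := by positivity
    linarith
  have hR0 : 0 ≤ ((k + 1 - ε) * n) * ((1 + 1 / k - ε) * L) := by positivity
  have hl0 : 0 ≤ K * X1 ^ ((k : ℝ) / (k + 1)) := by positivity
  rw [← pow_le_pow_iff_left₀ hl0 hR0 (Nat.succ_ne_zero k)]
  -- the power of `X1`
  have hpow : (X1 ^ ((k : ℝ) / (k + 1))) ^ (k + 1) = X1 ^ k := by
    rw [← Real.rpow_natCast, ← Real.rpow_mul hX0.le]
    have : (k : ℝ) / (k + 1) * ((k + 1 : ℕ) : ℝ) = k := by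
      push_cast
      field_simp
    rw [this, Real.rpow_natCast]
  have h3 : J * Real.exp (1 - J) ≤ 1 := by
    have := Real.add_one_le_exp (J - 1)
    calc J * Real.exp (1 - J) ≤ Real.exp (J - 1) * Real.exp (1 - J) := by
          gcongr; linarith
      _ = 1 := by rw [← Real.exp_add]; simp
  have h4 : (1 - ε) * (m * Real.exp (1 - J)) ≤ n * L := by
    have h5 : (1 - ε) * m ≤ n * J * L := by rwa [div_le_iff₀ hL0] at hgood
    calc (1 - ε) * (m * Real.exp (1 - J)) = ((1 - ε) * m) * Real.exp (1 - J) := by ring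
      _ ≤ (n * J * L) * Real.exp (1 - J) := by gcongr
      _ = n * L * (J * Real.exp (1 - J)) := by ring
      _ ≤ n * L * 1 := by gcongr
      _ = n * L := by ring
  have hexp : Real.exp ((L - J + (k + 1)) / k + 2 * ε) ^ k =
      m * Real.exp (1 - J) * (Real.exp (2 * ε) * Real.exp 1) ^ k := by
    have e1 : m = Real.exp L := by rw [hL, Real.exp_log hm]
    rw [e1, ← Real.exp_add, ← Real.exp_add, ← Real.exp_nat_mul, ← Real.exp_nat_mul,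
      ← Real.exp_add]
    congr 1
    field_simp
    ring
  have hXk : X1 ^ k = ((1 + 2 * ε) * k * (κ / 2) * Real.exp (2 * ε) * Real.exp 1) ^ k *
      (n * L) ^ k * (m * Real.exp (1 - J)) := by
    rw [hX1, mul_pow, mul_pow, hexp]
    rw [mul_assoc ((1 + 2 * ε) * k * (κ / 2)) (Real.exp (2 * ε)) (Real.exp 1),
      mul_pow ((1 + 2 * ε) * k * (κ / 2)) (Real.exp (2 * ε) * Real.exp 1)]
    ring
  rw [mul_pow, hpow, hXk]
  refine le_of_mul_le_mul_left ?_ h1ε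
  set P : ℝ := ((1 + 2 * ε) * k * (κ / 2) * Real.exp (2 * ε) * Real.exp 1) ^ k with hP
  have hP0 : 0 ≤ P := by positivity
  have hnL : 0 < n * L := by positivity
  calc (1 - ε) * (K ^ (k + 1) * (P * (n * L) ^ k * (m * Real.exp (1 - J))))
      = (K ^ (k + 1) * P) * (n * L) ^ k * ((1 - ε) * (m * Real.exp (1 - J))) := by ring
    _ ≤ (K ^ (k + 1) * P) * (n * L) ^ k * (n * L) := by gcongr
    _ = (K ^ (k + 1) * P) * (n * L) ^ (k + 1) := by ring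
    _ ≤ ((1 - ε) * ((k + 1 - ε) * (1 + 1 / k - ε)) ^ (k + 1)) * (n * L) ^ (k + 1) := by gcongr
    _ = (1 - ε) * (((k + 1 - ε) * (1 + 1 / k - ε)) ^ (k + 1) * (n * L) ^ (k + 1)) := by ring
    _ = (1 - ε) * (((k + 1 - ε) * n) * ((1 + 1 / k - ε) * L)) ^ (k + 1) := by
        rw [← mul_pow]
        congr 2
        ring

/-- the choice of `ε` -/
lemma exists_eps {k : ℕ} {K κ : ℝ}
    (hK : K ^ (k + 1) * (k * (κ / 2) * Real.exp 1) ^ k < ((k + 1) * (1 + 1 / k)) ^ (k + 1)) :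
    ∃ ε : ℝ, 0 < ε ∧ ε ≤ 1 / 4 ∧
      K ^ (k + 1) * ((1 + 2 * ε) * k * ((κ + ε) / 2) * Real.exp (2 * ε) * Real.exp 1) ^ k ≤
      (1 - ε) * ((k + 1 - ε) * (1 + 1 / k - ε)) ^ (k + 1) := by
  have hc1 : Continuous (fun ε : ℝ =>
      K ^ (k + 1) * ((1 + 2 * ε) * k * ((κ + ε) / 2) * Real.exp (2 * ε) * Real.exp 1) ^ k) := by
    fun_prop
  have hc2 : Continuous (fun ε : ℝ =>
      (1 - ε) * ((k + 1 - ε) * (1 + 1 / k - ε)) ^ (k + 1)) := by fun_prop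
  have hlt := (hc1.tendsto 0).eventually_lt (hc2.tendsto 0) (by
    simp only [mul_zero, add_zero, sub_zero, Real.exp_zero, mul_one, one_mul]
    exact hK)
  obtain ⟨δ, hδ0, hδ⟩ := Metric.eventually_nhds_iff.mp hlt
  refine ⟨min (δ / 2) (1 / 4), by positivity, min_le_right _ _, (hδ ?_).le⟩
  rw [Real.dist_eq, sub_zero, abs_of_pos (by positivity)]
  exact lt_of_le_of_lt (min_le_left _ _) (by linarith)

/-- the constants -/
lemma const {k : ℕ} (hk : 1 ≤ k) {K κ : ℝ} (hK0 : 0 ≤ K)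
    (hK : K ≤ (k + 1 : ℝ) ^ 2 / (k : ℝ) ^ ((2 * (k : ℝ) + 1) / (k + 1)) *
      (171 / 100 : ℝ) ^ (2 * (k : ℝ) / (k + 1)))
    (hκ0 : 0 < κ) (hκ : (171 / 25 : ℝ) ^ 2 * (κ * Real.exp 1) < 32) :
    K ^ (k + 1) * (k * (κ / 2) * Real.exp 1) ^ k < ((k + 1) * (1 + 1 / k)) ^ (k + 1) := by
  have hkR : (1 : ℝ) ≤ k := by exact_mod_cast hk
  have hk0 : (0 : ℝ) < k := by linarith
  have h1 : ((171 / 100 : ℝ) ^ 2 * (κ / 2 * Real.exp 1)) ^ k < 1 := by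
    refine pow_lt_one₀ (by positivity) ?_ (by omega)
    nlinarith
  have h2 : K ^ (k + 1) ≤ ((k + 1 : ℝ) ^ 2) ^ (k + 1) / (k : ℝ) ^ (2 * k + 1) *
      (171 / 100 : ℝ) ^ (2 * k) := by
    refine (pow_le_pow_left₀ hK0 hK (k + 1)).trans (le_of_eq ?_)
    rw [mul_pow, div_pow]
    congr 1
    · congr 1
      rw [← Real.rpow_natCast, ← Real.rpow_mul hk0.le]
      have : (2 * (k : ℝ) + 1) / (k + 1) * ((k + 1 : ℕ) : ℝ) = ((2 * k + 1 : ℕ) : ℝ) := by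
        push_cast
        field_simp
      rw [this, Real.rpow_natCast]
    · rw [← Real.rpow_natCast, ← Real.rpow_mul (by norm_num)]
      have : 2 * (k : ℝ) / (k + 1) * ((k + 1 : ℕ) : ℝ) = ((2 * k : ℕ) : ℝ) := by
        push_cast
        field_simp
      rw [this, Real.rpow_natCast]
  have h3 : 0 ≤ (k * (κ / 2) * Real.exp 1) ^ k := by positivity
  have h4 : (((k : ℝ) + 1) * (1 + 1 / k)) ^ (k + 1) = ((k + 1 : ℝ) ^ 2) ^ (k + 1) /
      (k : ℝ) ^ (k + 1) := by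
    rw [← div_pow]
    congr 1
    field_simp
  have hq : (0 : ℝ) < ((k + 1 : ℝ) ^ 2) ^ (k + 1) / (k : ℝ) ^ (k + 1) := by positivity
  calc K ^ (k + 1) * (k * (κ / 2) * Real.exp 1) ^ k
      ≤ (((k + 1 : ℝ) ^ 2) ^ (k + 1) / (k : ℝ) ^ (2 * k + 1) * (171 / 100 : ℝ) ^ (2 * k)) *
        (k * (κ / 2) * Real.exp 1) ^ k := by gcongr
    _ = ((k + 1 : ℝ) ^ 2) ^ (k + 1) / (k : ℝ) ^ (k + 1) *
        ((171 / 100 : ℝ) ^ 2 * (κ / 2 * Real.exp 1)) ^ k := by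
        have e1 : (k : ℝ) ^ (2 * k + 1) = (k : ℝ) ^ (k + 1) * (k : ℝ) ^ k := by ring
        have e2 : (k * (κ / 2) * Real.exp 1) ^ k = (k : ℝ) ^ k * (κ / 2 * Real.exp 1) ^ k := by
          rw [← mul_pow]; ring
        have e3 : (171 / 100 : ℝ) ^ (2 * k) = ((171 / 100 : ℝ) ^ 2) ^ k := by rw [pow_mul]
        rw [e1, e2, e3, mul_pow ((171 / 100 : ℝ) ^ 2)]
        field_simp
    _ < ((k + 1 : ℝ) ^ 2) ^ (k + 1) / (k : ℝ) ^ (k + 1) * 1 := by gcongr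
    _ = (((k : ℝ) + 1) * (1 + 1 / k)) ^ (k + 1) := by rw [mul_one, h4]

end Pool.Agent.TH285.AB
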