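import Pool.Agent.H390R2.Asym
import Pool.Agent.TH285.AB.Many
import Pool.Agent.TH285.AB.Opt

/-!
# The choice of parameters in the `n`-term problem
-/

set_option autoImplicit false

open Finset Nat Filter Topology

namespace Pool.Agent.TH285.AB

open Pool.Agent.H390R2

/-- `x ^ a / log x` is increasing -/
lemma rpow_div_log {a : ℝ} (ha : 1 / 2 ≤ a) {x X : ℝ} (hx : Real.exp 2 ≤ x) (hX : x ≤ X) :
    x ^ a / Real.log x ≤ X ^ a / Real.log X := by
  have ha0 : 0 < a := by linarith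
  have hinv : a⁻¹ ≤ 2 := by
    rw [inv_le_comm₀ ha0 (by norm_num)]
    linarith
  have h1 : Real.exp a⁻¹ ≤ x := (Real.exp_le_exp.mpr hinv).trans hx
  have h2 := Real.log_div_self_rpow_antitoneOn ha0 (Set.mem_Ici.mpr h1)
    (Set.mem_Ici.mpr (h1.trans hX)) hX
  simp only at h2
  have hx0 : 0 < x := lt_of_lt_of_le (Real.exp_pos _) hx
  have hX0 : 0 < X := hx0.trans_le hX
  have hlx : 0 < Real.log x := by
    apply Real.log_pos
    have : (1 : ℝ) < Real.exp 2 := Real.one_lt_exp_iff.mpr (by norm_num)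
    linarith
  have hlX : 0 < Real.log X := hlx.trans_le (Real.log_le_log hx0 hX)
  rw [div_le_div_iff₀ (by positivity) (by positivity)] at h2
  rw [div_le_div_iff₀ hlx hlX]
  linarith

lemma finale {k : ℕ} (hk : 1 ≤ k) {ε K κ n m L J DD a lam h : ℝ} (hε : 0 < ε) (hε1 : ε ≤ 1 / 4)
    (hK0 : 0 ≤ K) (hκ : 0 < κ)
    (hK : K ^ (k + 1) * ((1 + 2 * ε) * k * (κ / 2) * Real.exp (2 * ε) * Real.exp 1) ^ k ≤
      (1 - ε) * ((k + 1 - ε) * (1 + 1 / k - ε)) ^ (k + 1))
    (hn0 : 0 < n) (hm0 : 0 < m) (hL : L = Real.log m) (hL1 : 1 ≤ L)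
    (hgood : (1 - ε) * m / L ≤ n * J) (hJD : J ≤ DD) (hDD0 : 0 ≤ DD)
    (h4 : (DD - Real.log (κ / 4)) / ε ≤ L) (hnL : m / 2 ≤ n * L) (hm9 : 1 / (ε * κ) ≤ m)
    (ha : a = (L - J + (k + 1)) / k + 2 * ε) (ha0 : 0 ≤ a) (hlam : lam = κ * n * Real.exp a * L)
    (hh : Real.exp 2 ≤ h) (hhL : h ≤ k * ((lam + 1) / 2)) :
    K * (h ^ ((k : ℝ) / (k + 1)) / Real.log h) ≤ (k + 1 - ε) * n := by
  have hkR : (1 : ℝ) ≤ k := by exact_mod_cast hk
  have hk0 : (0 : ℝ) < k := by linarith only [hkR]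
  have hL0 : 0 < L := by linarith only [hL1]
  have hlam0 : 0 < lam := by rw [hlam]; positivity
  have hlamlow : κ * (m / 2) * Real.exp a ≤ lam := by
    calc κ * (m / 2) * Real.exp a ≤ κ * (n * L) * Real.exp a := by gcongr
      _ = lam := by rw [hlam]; ring
  set X1 : ℝ := (1 + 2 * ε) * k * (κ / 2) * (n * L) * Real.exp a with hX1
  have hX1lam : X1 = (1 + 2 * ε) * k * (lam / 2) := by rw [hX1, hlam]; ring
  have h2εlam : 1 ≤ 2 * ε * lam := by
    have e1 := hm9
    rw [div_le_iff₀ (by positivity)] at e1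
    have e2 : 1 ≤ Real.exp a := Real.one_le_exp ha0
    calc (1 : ℝ) ≤ m * (ε * κ) := e1
      _ = 2 * ε * (κ * (m / 2) * 1) := by ring
      _ ≤ 2 * ε * (κ * (m / 2) * Real.exp a) := by gcongr
      _ ≤ 2 * ε * lam := by gcongr
  have hhX1 : h ≤ X1 := by
    refine hhL.trans ?_
    rw [hX1lam]
    calc (k : ℝ) * ((lam + 1) / 2) ≤ k * ((lam + 2 * ε * lam) / 2) := by gcongr
      _ = (1 + 2 * ε) * k * (lam / 2) := by ring
  have hX1log : (1 + 1 / k - ε) * L ≤ Real.log X1 := by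
    have e1 : κ / 4 * m * Real.exp a ≤ X1 := by
      calc κ / 4 * m * Real.exp a = (κ * (m / 2) * Real.exp a) / 2 := by ring
        _ ≤ lam / 2 := by gcongr
        _ ≤ X1 := by
          rw [hX1lam]
          have : (1 : ℝ) ≤ (1 + 2 * ε) * k :=
            one_le_mul_of_one_le_of_one_le (by linarith only [hε]) hkR
          calc lam / 2 = 1 * (lam / 2) := by ring
            _ ≤ (1 + 2 * ε) * k * (lam / 2) := by gcongr
    have e2 := Real.log_le_log (by positivity) e1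
    rw [Real.log_mul (by positivity) (by positivity), Real.log_mul (by positivity) hm0.ne',
      Real.log_exp, ← hL] at e2
    rw [div_le_iff₀ hε] at h4
    have e3 : L / k - DD ≤ a := by
      have e5 : J / k ≤ DD := by
        rw [div_le_iff₀ hk0]
        exact hJD.trans (le_mul_of_one_le_right hDD0 hkR)
      have e6 : (L - J + (k + 1)) / k = L / k - J / k + (k + 1) / k := by ring
      have e7 : 0 < ((k : ℝ) + 1) / k := by positivity
      rw [ha, e6]
      linarith only [e5, e7, hε]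
    have e4 : (1 + 1 / (k : ℝ) - ε) * L = L + L / k - ε * L := by ring
    rw [e4]
    linarith only [e2, e3, h4]
  have hopt := opt (X1 := X1) (J := J) hk hε hε1 hK0 hκ hK hn0 hm0 hL hL0
    hgood (by rw [hX1, ha])
  have hpos2 : 0 < (1 + 1 / (k : ℝ) - ε) := by
    have : (0 : ℝ) < 1 / k := by positivity
    linarith only [this, hε1]
  have hα : (1 : ℝ) / 2 ≤ (k : ℝ) / (k + 1) := by
    rw [div_le_div_iff₀ (by norm_num) (by positivity)]
    linarith only [hkR]
  have hh0 : 0 < h := lt_of_lt_of_le (Real.exp_pos 2) hh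
  have hX10 : 0 < X1 := hh0.trans_le hhX1
  calc K * (h ^ ((k : ℝ) / (k + 1)) / Real.log h)
      ≤ K * (X1 ^ ((k : ℝ) / (k + 1)) / Real.log X1) :=
        mul_le_mul_of_nonneg_left (rpow_div_log hα hh hhX1) hK0
    _ ≤ K * (X1 ^ ((k : ℝ) / (k + 1)) / ((1 + 1 / k - ε) * L)) := by gcongr
    _ = K * X1 ^ ((k : ℝ) / (k + 1)) / ((1 + 1 / k - ε) * L) := by ring
    _ ≤ (k + 1 - ε) * n := by
        rw [div_le_iff₀ (by positivity)]
        exact hopt

theorem core {k : ℕ} (hk : 1 ≤ k) {ε K κ : ℝ} (hε : 0 < ε) (hε1 : ε ≤ 1 / 4) (hK0 : 0 ≤ K)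
    (hκ : 0 < κ)
    (hlat : ∃ (n0 : ℕ) (B : ℝ), ∀ (ι : Type) [Fintype ι] (N : ℕ) (W : ι → ℤ),
      n0 ≤ Fintype.card ι → 0 < N → B * Fintype.card ι ≤ Real.log N →
      ∃ e : ι → ℤ, e ≠ 0 ∧ (N : ℤ) ∣ ∑ i, W i * e i ∧
        ∑ i, |(e i : ℝ)| ≤ κ * Fintype.card ι * Real.exp (Real.log N / Fintype.card ι))
    (hK : K ^ (k + 1) * ((1 + 2 * ε) * k * (κ / 2) * Real.exp (2 * ε) * Real.exp 1) ^ k ≤
      (1 - ε) * ((k + 1 - ε) * (1 + 1 / k - ε)) ^ (k + 1)) (D : ℕ) (X0 : ℝ) :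
    ∃ (y : ℕ) (L' G : ℝ) (Q : Finset (ℕ × ℕ)),
      (∀ q ∈ Q, 0 < q.1 ∧ q.1 < q.2 ∧ q.1.primeFactors ⊆ primesLE y ∧
        q.2.primeFactors ⊆ primesLE y ∧ Nat.Coprime q.1 q.2 ∧ Real.log q.2 ≤ L' ∧
        G + Real.log (q.2 - q.1 : ℕ) ≤ Real.log q.2) ∧ D ≤ Q.card ∧
      ∀ h r : ℝ, 0 ≤ r → h ≤ k * L' → r + k * G ≤ h + ∑ p ∈ primesLE y, Real.log p →
        X0 ≤ h ∧ K * (h ^ ((k : ℝ) / (k + 1)) / Real.log h) ≤ h - r := by
  obtain ⟨n0, B0, hlat⟩ := hlat
  obtain ⟨DD, hDD0, hDD⟩ := ev_II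
  have hkR : (1 : ℝ) ≤ k := by exact_mod_cast hk
  have hk0 : (0 : ℝ) < k := by linarith
  have hD0 : (0 : ℝ) ≤ D := by positivity
  set B0' : ℝ := max B0 0 with hB0'
  have hB0'0 : 0 ≤ B0' := le_max_right _ _
  set B : ℝ := max (Real.exp 2) (max (X0 + 1) (n0 + D + 1)) with hB
  have hBe : Real.exp 2 ≤ B := le_max_left _ _
  have hBX : X0 + 1 ≤ B := (le_max_left _ _).trans (le_max_right _ _)
  have hBn : (n0 : ℝ) + D + 1 ≤ B := (le_max_right _ _).trans (le_max_right _ _)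
  have hB0 : 0 < B := lt_of_lt_of_le (Real.exp_pos 2) hBe
  obtain ⟨b9, hb9⟩ := exists_nat_ge (1 / (ε * κ))
  obtain ⟨b8, hb8⟩ := exists_nat_ge (κ * Real.exp (k + 2))
  have hev : ∀ᶠ m : ℕ in atTop,
      45 ≤ m ∧ b9 ≤ m ∧ 1 ≤ Real.log m ∧ (DD - Real.log (κ / 4)) / ε ≤ Real.log m ∧
      (m : ℝ) / (2 * Real.log m) ≤ Nat.primeCounting m ∧
      II m ≤ DD * Nat.primeCounting m ∧
      k * B0' + k + DD ≤ Real.log m ∧
      2 * B * Real.log m ^ 1 ≤ 1 * m ∧
      2 * Real.log m ^ 1 ≤ ε * m ∧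
      (2 * D * (k + 3) + 24 * k) * Real.log m ^ 2 ≤ ε * m ∧ b8 ≤ m := by
    filter_upwards [eventually_ge_atTop 45, eventually_ge_atTop b9, ev_log 1,
      ev_log ((DD - Real.log (κ / 4)) / ε), ev_pi, hDD, ev_log (k * B0' + k + DD),
      ev_pow 1 (a := 1) one_pos (2 * B), ev_pow 1 hε 2, ev_pow 2 hε (2 * D * (k + 3) + 24 * k),
      eventually_ge_atTop b8]
      with m h1 h2 h3 h4 h5 h6 h7 h8 h9 h10 h11
    exact ⟨h1, h2, h3, h4, h5, h6, h7, h8, h9, h10, h11⟩
  obtain ⟨Y, hY⟩ := eventually_atTop.mp hev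
  obtain ⟨m, hmY, hgood⟩ := exists_good hε Y
  obtain ⟨h1, h2, h3, h4, h5, h6, h7, h8, h9, h10, h11⟩ := hY m hmY
  clear hev hY hDD hmY
  have hm45 : (45 : ℝ) ≤ m := by exact_mod_cast h1
  have hm0 : (0 : ℝ) < m := by linarith
  set L : ℝ := Real.log m with hL
  have hL0 : 0 < L := by linarith
  have hLm : L ≤ m := (Real.log_le_sub_one_of_pos hm0).trans (by linarith)
  set n : ℝ := (Nat.primeCounting m : ℝ) with hn
  have hn0 : 0 < n := lt_of_lt_of_le (by positivity) h5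
  have hnm : n ≤ m := by
    rw [hn, ← Nat.primesLE_card_eq_primeCounting]
    have : (primesLE m).card ≤ m := by
      have h := Finset.card_le_card (s := primesLE m) (t := Finset.Icc 1 m) (fun p hp => by
        rw [Finset.mem_Icc]
        exact ⟨(prime_of_mem_primesLE hp).one_le, le_of_mem_primesLE hp⟩)
      simpa using h
    exact_mod_cast this
  rw [pow_one] at h8 h9
  have hnL : (m : ℝ) / 2 ≤ n * L := by
    rw [div_le_iff₀ (by positivity)] at h5
    linarith
  have hnB : B ≤ n := by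
    refine le_trans ?_ h5
    rw [le_div_iff₀ (by positivity)]
    linarith
  have hεn : 1 ≤ ε * n := by
    have : 1 ≤ ε * (m / (2 * L)) := by
      rw [mul_div_assoc', le_div_iff₀ (by positivity)]; linarith
    exact this.trans (by gcongr)
  -- `D (k + 3) L + 12 k L ≤ ε n`
  have hεL : D * (k + 3) * L + 12 * k * L ≤ ε * n := by
    have : D * (k + 3) * L + 12 * k * L ≤ ε * (m / (2 * L)) := by
      rw [mul_div_assoc', le_div_iff₀ (by positivity)]
      calc (D * (k + 3) * L + 12 * k * L) * (2 * L)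
          = (2 * D * (k + 3) + 24 * k) * L ^ 2 := by ring
        _ ≤ ε * m := h10
    exact this.trans (by gcongr)
  have hkL : 12 * k * L ≤ ε * n := by
    have : 0 ≤ D * ((k : ℝ) + 3) * L := by positivity
    linarith
  have hDL : D * (k + 3) * L ≤ ε * n := by
    have : 0 ≤ 12 * (k : ℝ) * L := by positivity
    linarith
  set J : ℝ := II m / n with hJ
  have hnJ : n * J = II m := by rw [hJ]; field_simp
  have hJD : J ≤ DD := by
    rw [hJ, div_le_iff₀ hn0]; exact h6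
  have hII0 : 0 < II m := lt_of_lt_of_le (by
    have : 0 < 1 - ε := by linarith
    positivity) hgood
  have hJ0 : 0 < J := by positivity
  set θ : ℝ := ∑ p ∈ primesLE m, Real.log p with hθ
  have hθJ : θ = n * L - n * J := by
    rw [hnJ, II_eq (by omega)]; ring
  have hθ0 : 0 ≤ θ := Finset.sum_nonneg fun p hp => Real.log_natCast_nonneg p
  -- the modulus
  set T : ℝ := (θ + (k + 1) * n) / k with hT
  have hkT : k * T = θ + (k + 1) * n := by rw [hT]; field_simp
  have hTn : T = n * ((L - J + (k + 1)) / k) := by rw [hT, hθJ]; field_simp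
  have hT0 : 0 ≤ T := by rw [hT]; positivity
  set N : ℕ := ⌈Real.exp T⌉₊ with hN
  have hNle : Real.exp T ≤ N := Nat.le_ceil _
  have hNlt : (N : ℝ) < Real.exp T + 1 := Nat.ceil_lt_add_one (Real.exp_pos _).le
  have hN0' : (0 : ℝ) < N := lt_of_lt_of_le (Real.exp_pos _) hNle
  have hN0 : 0 < N := by exact_mod_cast hN0'
  have hlogN1 : T ≤ Real.log N := by
    rw [Real.le_log_iff_exp_le hN0']; exact hNle
  have hlogN2 : Real.log N ≤ T + 1 := by
    rw [Real.log_le_iff_le_exp hN0']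
    refine hNlt.le.trans ?_
    rw [Real.exp_add T 1]
    have h11 : 1 ≤ Real.exp T := Real.one_le_exp hT0
    have h12 : 2 ≤ Real.exp 1 := by linarith only [Real.add_one_le_exp (1 : ℝ)]
    have h13 := mul_le_mul_of_nonneg_left h12 (Real.exp_pos T).le
    linarith only [h11, h13]
  have hl2 : (0 : ℝ) < Real.log 2 := Real.log_pos one_lt_two
  have hlogp' : ∀ p : {p // p ∈ primesLE m}, Real.log (p : ℕ) ≤ L := fun p =>
    Real.log_le_log (by exact_mod_cast (prime_of_mem_primesLE p.2).pos)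
      (by exact_mod_cast le_of_mem_primesLE p.2)
  -- the exponent
  set a : ℝ := (L - J + (k + 1)) / k + 2 * ε with ha
  have hkB : 0 ≤ k * B0' := by positivity
  have hb1 : 1 ≤ (L - J + (k + 1)) / k := by
    rw [le_div_iff₀ hk0]
    linarith only [h7, hkB, hJD]
  have hbB : B0' ≤ (L - J + (k + 1)) / k := by
    rw [le_div_iff₀ hk0]
    linarith only [h7, hkB, hJD, hk0]
  have hb2 : (L - J + (k + 1)) / k ≤ L + k + 1 := by
    rw [div_le_iff₀ hk0]
    have : L + k + 1 ≤ (L + k + 1) * k := le_mul_of_one_le_right (by positivity) hkR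
    linarith only [this, hJ0]
  have ha0 : 0 ≤ a := by linarith only [hb1, hε, ha]
  have haL : a ≤ L + k + 2 := by linarith only [hb2, hε1, ha]
  have haL' : a ≤ (k + 3) * L := by
    have e1 : (k : ℝ) ≤ k * L := le_mul_of_one_le_right hk0.le h3
    linarith only [haL, e1, h3]
  have hn0D : (n0 : ℝ) ≥ 0 := by positivity
  have hnD : 0 < n - D := by linarith only [hnB, hBn, hn0D]
  have hDa : D * a ≤ n * ε := by
    calc D * a ≤ D * ((k + 3) * L) := by gcongr
      _ = D * (k + 3) * L := by ring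
      _ ≤ ε * n := hDL
      _ = n * ε := by ring
  have hlogNa : Real.log N / (n - D) ≤ a := by
    rw [div_le_iff₀ hnD]
    have e1 : T + 1 ≤ n * ((L - J + (k + 1)) / k) + ε * n := by
      rw [← hTn]; linarith only [hεn]
    have e2 : a * (n - D) = n * ((L - J + (k + 1)) / k) + 2 * (n * ε) - D * a := by
      rw [ha]; ring
    rw [e2]
    linarith only [e1, hlogN2, hDa]
  -- the length
  set lam : ℝ := κ * n * Real.exp a * L with hlam
  have hlam0 : 0 < lam := by positivity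
  have hlamlow : κ * (m / 2) * Real.exp a ≤ lam := by
    calc κ * (m / 2) * Real.exp a ≤ κ * (n * L) * Real.exp a := by gcongr
      _ = lam := by rw [hlam]; ring
  have hlatS : ∀ S : Finset {p // p ∈ primesLE m}, S.card ≤ D →
      ∀ W : {p // p ∈ primesLE m} → ℤ, ∃ e : {p // p ∈ primesLE m} → ℤ, e ≠ 0 ∧
        (∀ p ∈ S, e p = 0) ∧ (N : ℤ) ∣ ∑ i, W i * e i ∧
        ∑ i : {p // p ∈ primesLE m}, |(e i : ℝ)| * Real.log (i : ℕ) ≤ lam := by
    intro S hS W
    obtain ⟨e, he, he0, hdvd, hle⟩ := lat_of (m := m) (N := N) (D := D) (n0 := n0) (B0 := B0')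
      hκ.le hB0'0
      (fun ι _ N W h1 h2 h3 => hlat ι N W h1 h2
        (le_trans (mul_le_mul_of_nonneg_right (le_max_left _ _) (by positivity)) h3))
      (by
        have : (n0 : ℝ) + D + 1 ≤ Nat.primeCounting m := hBn.trans hnB
        exact_mod_cast this) hN0
      (by
        refine le_trans ?_ hlogN1
        rw [hTn, mul_comm]
        exact mul_le_mul_of_nonneg_left hbB hn0.le) S hS W
    refine ⟨e, he, he0, hdvd, ?_⟩
    rw [← hn] at hle
    calc ∑ i : {p // p ∈ primesLE m}, |(e i : ℝ)| * Real.log (i : ℕ)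
        ≤ ∑ i : {p // p ∈ primesLE m}, |(e i : ℝ)| * L :=
          Finset.sum_le_sum fun i _ => mul_le_mul_of_nonneg_left (hlogp' i) (abs_nonneg _)
      _ = (∑ i : {p // p ∈ primesLE m}, |(e i : ℝ)|) * L := by rw [Finset.sum_mul]
      _ ≤ (κ * n * Real.exp (Real.log N / (n - D))) * L := by gcongr
      _ ≤ (κ * n * Real.exp a) * L := by gcongr
      _ = lam := by rw [hlam]
  -- crude bound for `lam`
  have hlamm : lam ≤ (m : ℝ) ^ 4 := by
    have h20 : Real.exp a ≤ m * Real.exp (k + 2) := by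
      calc Real.exp a ≤ Real.exp (L + (k + 2)) := Real.exp_le_exp.mpr (by linarith only [haL])
        _ = m * Real.exp (k + 2) := by rw [Real.exp_add, hL, Real.exp_log hm0]
    have h22 : κ * Real.exp (k + 2) ≤ m := hb8.trans (by exact_mod_cast h11)
    calc lam = κ * n * Real.exp a * L := by rw [hlam]
      _ ≤ κ * m * (m * Real.exp (k + 2)) * m := by gcongr
      _ = (κ * Real.exp (k + 2)) * (m * m * m) := by ring
      _ ≤ m * (m * m * m) := by gcongr
      _ = (m : ℝ) ^ 4 := by ring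
  have hlam1 : lam + 1 ≤ (m : ℝ) ^ 5 := by
    have : (1 : ℝ) ≤ (m : ℝ) ^ 4 := one_le_pow₀ (by linarith only [hm45])
    calc lam + 1 ≤ (m : ℝ) ^ 4 + (m : ℝ) ^ 4 := by linarith only [this, hlamm]
      _ = 2 * (m : ℝ) ^ 4 := by ring
      _ ≤ m * (m : ℝ) ^ 4 := by gcongr; linarith only [hm45]
      _ = (m : ℝ) ^ 5 := by ring
  have hprod : lam * (lam + 1) ≤ (m : ℝ) ^ 9 := by
    calc lam * (lam + 1) ≤ (m : ℝ) ^ 4 * (m : ℝ) ^ 5 := by gcongr
      _ = (m : ℝ) ^ 9 := by ring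
  have hlogprod : Real.log (lam * (lam + 1)) ≤ 9 * L := by
    have := Real.log_le_log (by positivity) hprod
    rwa [Real.log_pow] at this
  -- the error term is at most one
  have hLkL : L ≤ k * L := le_mul_of_one_le_left hL0.le hkR
  have hεn4 : ε * n ≤ 1 / 4 * n := mul_le_mul_of_nonneg_right hε1 hn0.le
  have hTge : n ≤ T := by
    rw [hTn]
    exact le_mul_of_one_le_right hn0.le hb1
  have herr : lam * (lam + 1) / (N * Real.log 2) ≤ 1 := by
    rw [div_le_one (by positivity)]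
    rw [← Real.log_le_log_iff (by positivity) (by positivity),
      Real.log_mul hN0'.ne' hl2.ne']
    linarith only [loglog_ge, hlogprod, hlogN1, hTge, hεn4, hkL, hLkL, hn0, h3]
  obtain ⟨Q, hQD, hQ⟩ := exists_many hN0 hlam0 hlatS herr
  refine ⟨m, (lam + 1) / 2, Real.log N + Real.log (Real.log 2) - Real.log (lam * (lam + 1)), Q,
    hQ, hQD, ?_⟩
  intro h r hr hhL hgain
  rw [← hθ] at hgain
  -- the gain
  have hGn : (k + 1 - ε) * n ≤ h - r := by
    have e1 : T - 1 - 9 * L ≤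
        Real.log N + Real.log (Real.log 2) - Real.log (lam * (lam + 1)) := by
      linarith only [loglog_ge, hlogprod, hlogN1]
    have e2 : k * (T - 1 - 9 * L) ≤
        k * (Real.log N + Real.log (Real.log 2) - Real.log (lam * (lam + 1))) :=
      mul_le_mul_of_nonneg_left e1 hk0.le
    have e3 : k * (T - 1 - 9 * L) = θ + (k + 1) * n - (k + 9 * k * L) := by
      have : k * (T - 1 - 9 * L) = k * T - (k + 9 * k * L) := by ring
      rw [this, hkT]
    have e4 : (k : ℝ) ≤ k * L := le_mul_of_one_le_right hk0.le h3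
    have e5 : (k : ℝ) + 9 * k * L ≤ ε * n := by
      have : 0 ≤ (k : ℝ) * L := by positivity
      linarith only [e4, hkL, this]
    have e6 : (k + 1 - ε) * n = (k + 1) * n - ε * n := by ring
    rw [e6]
    linarith only [e2, e3, e5, hgain]
  have hhn : n ≤ h := by
    have e0 : (1 : ℝ) ≤ k + 1 - ε := by linarith only [hkR, hε1]
    have e1 : n ≤ (k + 1 - ε) * n := le_mul_of_one_le_left hn0.le e0
    linarith only [e1, hGn, hr]
  have hhB : B ≤ h := hnB.trans hhn
  refine ⟨by linarith only [hBX, hhB], ?_⟩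
  refine le_trans ?_ hGn
  exact finale (m := (m : ℝ)) (J := J) (DD := DD) (a := a) (lam := lam) hk hε hε1 hK0 hκ hK hn0 hm0
    hL h3 (by rw [hnJ]; exact hgood) hJD hDD0 h4 hnL (hb9.trans (by exact_mod_cast h2)) ha ha0 hlam
    (hBe.trans hhB) hhL

end Pool.Agent.TH285.AB
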