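import Pool.Agent.H951R3.U.U3

/-!
# Points with small radical outside a given hypersurface

A version of `Pool.Agent.H951R3.U.main_alg` for pairs of smooth numbers that are close together.
-/

set_option autoImplicit false

open Finset Nat

namespace Pool.Agent.TH285.AB

open Pool.Agent.H951R3.U

theorem main_alg {k : ℕ} (F : MvPolynomial (Fin (k + 2)) ℂ) {d : ℕ} (hF : F.IsHomogeneous d)
    (hF0 : ∃ z : Fin (k + 2) → ℂ, ∑ i, z i = 0 ∧ MvPolynomial.eval z F ≠ 0) :
    ∃ D : ℕ, ∀ (y : ℕ) (L G : ℝ) (Q : Finset (ℕ × ℕ)),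
      (∀ q ∈ Q, 0 < q.1 ∧ q.1 < q.2 ∧ q.1.primeFactors ⊆ primesLE y ∧
        q.2.primeFactors ⊆ primesLE y ∧ Nat.Coprime q.1 q.2 ∧ Real.log q.2 ≤ L ∧
        G + Real.log (q.2 - q.1 : ℕ) ≤ Real.log q.2) → D ≤ Q.card →
      ∃ z : Fin (k + 2) → ℤ, (∀ i, z i ≠ 0) ∧ ∑ i, z i = 0 ∧
        MvPolynomial.eval (fun i => (z i : ℂ)) F ≠ 0 ∧ ht z ≤ k * L ∧
        radz z + k * G ≤ ht z + ∑ p ∈ primesLE y, Real.log p := by
  classical
  obtain ⟨D, hD⟩ := exists_grid F hF hF0
  refine ⟨D, fun y L G Q hQ hcard => ?_⟩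
  set T : Finset ℂ := Q.image (fun q : ℕ × ℕ => (q.1 : ℂ) / q.2) with hT
  have hTcard : D ≤ T.card := by
    rw [hT, Finset.card_image_of_injOn]
    · exact hcard
    · intro q hq q' hq' h
      obtain ⟨h1, h2, -, -, h5, -, -⟩ := hQ q hq
      obtain ⟨h1', h2', -, -, h5', -, -⟩ := hQ q' hq'
      have e1 : (q.2 : ℂ) ≠ 0 := by exact_mod_cast (by omega : q.2 ≠ 0)
      have e2 : (q'.2 : ℂ) ≠ 0 := by exact_mod_cast (by omega : q'.2 ≠ 0)
      simp only at h
      rw [div_eq_div_iff e1 e2] at h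
      have h3 : q.1 * q'.2 = q'.1 * q.2 := by exact_mod_cast h
      have h6 : q.2 ∣ q'.2 := by
        have : q.2 ∣ q.1 * q'.2 := by rw [h3]; exact Dvd.intro_left _ rfl
        exact h5.symm.dvd_of_dvd_mul_left this
      have h7 : q'.2 ∣ q.2 := by
        have : q'.2 ∣ q'.1 * q.2 := by rw [← h3]; exact Dvd.intro_left _ rfl
        exact h5'.symm.dvd_of_dvd_mul_left this
      have h8 : q.2 = q'.2 := Nat.dvd_antisymm h6 h7
      rw [← h8] at h3
      have h9 : q.1 = q'.1 := Nat.eq_of_mul_eq_mul_right (by omega) h3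
      exact Prod.ext h9 h8
  obtain ⟨x, hxT, hxF⟩ := hD T hTcard
  have hch : ∀ i, ∃ q : ℕ × ℕ, i < k → (q ∈ Q ∧ (q.1 : ℂ) / q.2 = x i) := by
    intro i
    by_cases hi : i < k
    · obtain ⟨q, hq, hq'⟩ := mem_image.mp (hxT i hi)
      exact ⟨q, fun _ => ⟨hq, hq'⟩⟩
    · exact ⟨0, fun h => absurd h hi⟩
  choose q hq using hch
  set s : ℕ → ℕ := fun i => (q i).1 with hs
  set c : ℕ → ℕ := fun i => (q i).2 with hcdef
  have hqQ : ∀ i < k, q i ∈ Q := fun i hi => (hq i hi).1
  have hspos' : ∀ i < k, 0 < s i := fun i hi => (hQ _ (hqQ i hi)).1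
  have hclt : ∀ i < k, s i < c i := fun i hi => (hQ _ (hqQ i hi)).2.1
  have hsF : ∀ i < k, (s i).primeFactors ⊆ primesLE y := fun i hi => (hQ _ (hqQ i hi)).2.2.1
  have hcF : ∀ i < k, (c i).primeFactors ⊆ primesLE y := fun i hi => (hQ _ (hqQ i hi)).2.2.2.1
  have hcL : ∀ i < k, Real.log (c i) ≤ L := fun i hi => (hQ _ (hqQ i hi)).2.2.2.2.2.1
  have hG : ∀ i < k, G + Real.log (c i - s i : ℕ) ≤ Real.log (c i) :=
    fun i hi => (hQ _ (hqQ i hi)).2.2.2.2.2.2
  have hc0' : ∀ i < k, c i ≠ 0 := fun i hi => by have := hclt i hi; omega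
  set zN : ℕ → ℤ := zc k (fun i => (c i : ℤ) - s i) (fun i => (s i : ℤ)) (fun i => (c i : ℤ)) with hzN
  set z : Fin (k + 2) → ℤ := fun j => zN j with hz
  -- the coordinates
  have hzlt : ∀ j < k, zN j = (∏ i ∈ range j, ((c i : ℤ) - s i)) * s j *
      ∏ i ∈ Ico (j + 1) k, (c i : ℤ) := by
    intro j hj
    rw [hzN]; unfold zc; rw [if_pos hj]
  have hzk : zN k = ∏ i ∈ range k, ((c i : ℤ) - s i) := by
    rw [hzN]; unfold zc; rw [if_neg (by omega), if_pos rfl]
  have hzk1 : zN (k + 1) = - ∏ i ∈ range k, (c i : ℤ) := by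
    rw [hzN]; unfold zc; rw [if_neg (by omega), if_neg (by omega)]
  have hcpos : ∀ i < k, (0 : ℤ) < c i := fun i hi => by
    have := hclt i hi
    exact_mod_cast (by omega : 0 < c i)
  have hapos : ∀ i < k, (0 : ℤ) < (c i : ℤ) - s i := fun i hi => by
    have : (s i : ℤ) < c i := by exact_mod_cast hclt i hi
    linarith
  have hspos : ∀ i < k, (0 : ℤ) < s i := fun i hi => by exact_mod_cast hspos' i hi
  -- nonvanishing
  have hz0 : ∀ i, z i ≠ 0 := by
    intro i
    have hi : (i : ℕ) < k ∨ (i : ℕ) = k ∨ (i : ℕ) = k + 1 := by omega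
    rw [hz]
    simp only
    rcases hi with h | h | h
    · rw [hzlt _ h]
      refine mul_ne_zero (mul_ne_zero ?_ (hspos _ h).ne') ?_
      · exact prod_ne_zero_iff.mpr fun m hm => (hapos m (by have := mem_range.mp hm; omega)).ne'
      · exact prod_ne_zero_iff.mpr fun m hm => (hcpos m (by have := mem_Ico.mp hm; omega)).ne'
    · rw [h, hzk]
      exact prod_ne_zero_iff.mpr fun m hm => (hapos m (mem_range.mp hm)).ne'
    · rw [h, hzk1]
      exact neg_ne_zero.mpr (prod_ne_zero_iff.mpr fun m hm => (hcpos m (mem_range.mp hm)).ne')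
  -- the sum
  have hzsum : ∑ i, z i = 0 := by
    rw [hz, Fin.sum_univ_eq_sum_range zN (k + 2), hzN]
    exact zc_sum k _ _ _ fun i => by ring
  -- the form
  have hFz : MvPolynomial.eval (fun i => (z i : ℂ)) F ≠ 0 := by
    have h1 : (fun i : Fin (k + 2) => (z i : ℂ)) = fun i : Fin (k + 2) =>
        (∏ m ∈ range k, (c m : ℂ)) * zc k (fun i => 1 - x i) x (fun _ => 1) i := by
      funext j
      have h2 : (z j : ℂ) = (Int.castRingHom ℂ) (zN j) := rfl
      rw [h2, hzN, zc_map, ← zc_scale]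
      refine zc_congr k ?_ ?_ ?_ _
      · intro i hi
        have e1 : (c i : ℂ) ≠ 0 := by exact_mod_cast hc0' i hi
        have e2 : (s i : ℂ) / c i = x i := (hq i hi).2
        rw [← e2]
        simp only [map_sub, map_natCast]
        field_simp
      · intro i hi
        have e1 : (c i : ℂ) ≠ 0 := by exact_mod_cast hc0' i hi
        have e2 : (s i : ℂ) / c i = x i := (hq i hi).2
        rw [← e2]
        simp only [map_natCast]
        field_simp
      · intro i hi
        simp
    rw [h1, eval_scale F hF]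
    refine mul_ne_zero (pow_ne_zero _ (prod_ne_zero_iff.mpr fun m hm => ?_)) hxF
    exact_mod_cast hc0' m (mem_range.mp hm)
  -- size
  set Cp : ℕ := ∏ i ∈ range k, c i with hCp
  have hCp0 : Cp ≠ 0 := prod_ne_zero_iff.mpr fun m hm => hc0' m (mem_range.mp hm)
  have hCpR : (0 : ℝ) < Cp := by exact_mod_cast Nat.pos_of_ne_zero hCp0
  have hlast : (z ⟨k + 1, by omega⟩).natAbs = Cp := by
    have h1 : z ⟨k + 1, by omega⟩ = -((Cp : ℕ) : ℤ) := by
      rw [hz]
      simp only
      rw [hzk1, hCp]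
      push_cast
      rfl
    rw [h1, Int.natAbs_neg, Int.natAbs_natCast]
  set R : ℕ := ∏ i ∈ range k, (c i - s i) with hR
  have hmid : (z ⟨k, by omega⟩).natAbs = R := by
    have h1 : z ⟨k, by omega⟩ = ((∏ i ∈ range k, (c i - s i) : ℕ) : ℤ) := by
      rw [hz]
      simp only
      rw [hzk]
      push_cast
      refine prod_congr rfl fun i hi => ?_
      rw [Nat.cast_sub (hclt i (mem_range.mp hi)).le]
    rw [h1, Int.natAbs_natCast]
  have hle : ∀ i, (z i).natAbs ≤ Cp := by
    intro i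
    have h0 : |z i| ≤ (Cp : ℤ) := by
      have hi : (i : ℕ) < k ∨ (i : ℕ) = k ∨ (i : ℕ) = k + 1 := by omega
      have hCpZ : (Cp : ℤ) = ∏ i ∈ range k, (c i : ℤ) := by rw [hCp]; push_cast; rfl
      rw [hz, hCpZ]
      simp only
      rcases hi with h | h | h
      · rw [hzlt _ h]
        have e1 : (0 : ℤ) ≤ ∏ m ∈ range (i : ℕ), ((c m : ℤ) - s m) :=
          prod_nonneg fun m hm => (hapos m (by have := mem_range.mp hm; omega)).le
        have e2 : (0 : ℤ) ≤ ∏ m ∈ Ico ((i : ℕ) + 1) k, (c m : ℤ) :=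
          prod_nonneg fun m hm => (hcpos m (by have := mem_Ico.mp hm; omega)).le
        have e4 := (hspos _ h).le
        rw [abs_of_nonneg (by positivity)]
        have e3 : ∏ m ∈ range k, (c m : ℤ) = (∏ m ∈ range (i : ℕ), (c m : ℤ)) *
            (c i) * ∏ m ∈ Ico ((i : ℕ) + 1) k, (c m : ℤ) := by
          rw [mul_assoc, ← Finset.prod_eq_prod_Ico_succ_bot h (fun m => (c m : ℤ)),
            Finset.prod_range_mul_prod_Ico (fun m => (c m : ℤ)) h.le]
        rw [e3]
        refine mul_le_mul_of_nonneg_right ?_ e2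
        refine mul_le_mul ?_ ?_ e4 ?_
        · refine prod_le_prod (fun m hm => (hapos m (by have := mem_range.mp hm; omega)).le)
            fun m hm => ?_
          have := hspos m (by have := mem_range.mp hm; omega)
          linarith
        · exact_mod_cast (hclt _ h).le
        · exact prod_nonneg fun m hm => (hcpos m (by have := mem_range.mp hm; omega)).le
      · rw [h, hzk, abs_of_nonneg (prod_nonneg fun m hm => (hapos m (mem_range.mp hm)).le)]
        refine prod_le_prod (fun m hm => (hapos m (mem_range.mp hm)).le) fun m hm => ?_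
        have := hspos m (mem_range.mp hm)
        linarith
      · rw [h, hzk1, abs_neg, abs_of_nonneg (prod_nonneg fun m hm => (hcpos m (mem_range.mp hm)).le)]
    have h1 : (((z i).natAbs : ℕ) : ℤ) ≤ Cp := by rw [Int.natCast_natAbs]; exact h0
    exact_mod_cast h1
  have hsup : (univ.sup fun i => (z i).natAbs) = Cp := by
    refine le_antisymm (Finset.sup_le fun i _ => hle i) ?_
    rw [← hlast]
    exact Finset.le_sup (f := fun i => (z i).natAbs) (mem_univ _)
  set g : ℕ := univ.gcd fun i => (z i).natAbs with hg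
  have hgCp : g ∣ Cp := by
    rw [← hlast]
    exact Finset.gcd_dvd (f := fun i => (z i).natAbs) (mem_univ _)
  have hg0 : g ≠ 0 := fun h => hCp0 (by rw [h] at hgCp; exact zero_dvd_iff.mp hgCp)
  have hgR : (0 : ℝ) < g := by exact_mod_cast Nat.pos_of_ne_zero hg0
  have hht : ht z = Real.log Cp - Real.log g := by
    unfold ht
    rw [hsup]
  have hlogCp : Real.log Cp ≤ k * L := by
    rw [hCp]
    push_cast
    rw [Real.log_prod (fun i hi => by exact_mod_cast hc0' i (mem_range.mp hi))]
    refine (sum_le_sum fun i hi => hcL i (mem_range.mp hi)).trans ?_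
    rw [sum_const, card_range, nsmul_eq_mul]
  -- primes of `Cp`
  have hpCp : ∀ p : ℕ, p.Prime → p ∣ Cp → p ∈ primesLE y := by
    intro p hp hpd
    obtain ⟨i, hi, hpi⟩ := (Prime.dvd_finsetProd_iff hp.prime _).mp hpd
    exact hcF i (mem_range.mp hi) (Nat.mem_primeFactors.mpr ⟨hp, hpi, hc0' i (mem_range.mp hi)⟩)
  have hR0 : R ≠ 0 :=
    prod_ne_zero_iff.mpr fun i hi => by have := hclt i (mem_range.mp hi); omega
  have hgR' : g ∣ R := by
    rw [← hmid]
    exact Finset.gcd_dvd (f := fun i => (z i).natAbs) (mem_univ _)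
  obtain ⟨R', hR'⟩ := hgR'
  have hR'0 : R' ≠ 0 := by
    rintro rfl; exact hR0 (by rw [hR', mul_zero])
  have hR'R : (0 : ℝ) < R' := by exact_mod_cast Nat.pos_of_ne_zero hR'0
  -- the radical
  have hrad : radz z ≤ ∑ p ∈ primesLE y, Real.log p + Real.log R' := by
    unfold radz
    set 𝓑 := ((∏ i, (z i).natAbs).primeFactors.filter
      (fun p => ∃ i j, padicValInt p (z i) ≠ padicValInt p (z j))) with h𝓑
    rw [← sum_filter_add_sum_filter_not 𝓑 (fun p => p ∈ primesLE y)]
    refine add_le_add ?_ ?_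
    · refine sum_le_sum_of_subset_of_nonneg (fun p hp => (mem_filter.mp hp).2) fun p hp _ => ?_
      exact Real.log_natCast_nonneg p
    · have hBp : ∀ p ∈ 𝓑.filter (fun p => p ∉ primesLE y), p.Prime := fun p hp =>
        Nat.prime_of_mem_primeFactors (mem_filter.mp (mem_filter.mp hp).1).1
      have hdvd : ∀ p ∈ 𝓑.filter (fun p => p ∉ primesLE y), p ∣ R' := by
        intro p hp
        have hpp := hBp p hp
        have hpy := (mem_filter.mp hp).2
        have hpd : p ∣ ∏ i, (z i).natAbs :=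
          Nat.dvd_of_mem_primeFactors (mem_filter.mp (mem_filter.mp hp).1).1
        obtain ⟨i, _, hpi⟩ := (Prime.dvd_finsetProd_iff hpp.prime _).mp hpd
        have hpZ : Prime (p : ℤ) := Nat.prime_iff_prime_int.mp hpp
        have hpi' : (p : ℤ) ∣ z i := Int.natCast_dvd.mpr hpi
        -- `p` does not divide the `c i` and `s i`
        have hpc : ∀ m < k, ¬ (p : ℤ) ∣ (c m : ℤ) := by
          intro m hm h
          have h3 : p ∣ c m := by exact_mod_cast h
          exact hpy (hcF m hm (Nat.mem_primeFactors.mpr ⟨hpp, h3, hc0' m hm⟩))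
        have hps : ∀ m < k, ¬ (p : ℤ) ∣ (s m : ℤ) := by
          intro m hm h
          have h3 : p ∣ s m := by exact_mod_cast h
          exact hpy (hsF m hm (Nat.mem_primeFactors.mpr ⟨hpp, h3, (hspos' m hm).ne'⟩))
        have hpa : ∃ m < k, (p : ℤ) ∣ (c m : ℤ) - s m := by
          have hi : (i : ℕ) < k ∨ (i : ℕ) = k ∨ (i : ℕ) = k + 1 := by omega
          rw [hz] at hpi'
          simp only at hpi'
          rcases hi with h | h | h
          · rw [hzlt _ h] at hpi'
            rcases hpZ.dvd_or_dvd hpi' with h1 | h1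
            · rcases hpZ.dvd_or_dvd h1 with h2 | h2
              · obtain ⟨m, hm, hm'⟩ := (Prime.dvd_finsetProd_iff hpZ _).mp h2
                exact ⟨m, by have := mem_range.mp hm; omega, hm'⟩
              · exact absurd h2 (hps _ h)
            · obtain ⟨m, hm, hm'⟩ := (Prime.dvd_finsetProd_iff hpZ _).mp h1
              exact absurd hm' (hpc m (by have := mem_Ico.mp hm; omega))
          · rw [h, hzk] at hpi'
            obtain ⟨m, hm, hm'⟩ := (Prime.dvd_finsetProd_iff hpZ _).mp hpi'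
            exact ⟨m, mem_range.mp hm, hm'⟩
          · rw [h, hzk1, dvd_neg] at hpi'
            obtain ⟨m, hm, hm'⟩ := (Prime.dvd_finsetProd_iff hpZ _).mp hpi'
            exact absurd hm' (hpc m (mem_range.mp hm))
        obtain ⟨m, hm, hpm⟩ := hpa
        have hpm' : p ∣ c m - s m := by
          have : ((c m - s m : ℕ) : ℤ) = (c m : ℤ) - s m := Nat.cast_sub (hclt m hm).le
          rw [← this] at hpm
          exact_mod_cast hpm
        have hpR : p ∣ R := hpm'.trans
          (Finset.dvd_prod_of_mem (fun i => c i - s i) (mem_range.mpr hm))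
        rw [hR'] at hpR
        refine (hpp.dvd_mul.mp hpR).resolve_left fun h => ?_
        exact hpy (hpCp p hpp (h.trans hgCp))
      have h1 : ∏ p ∈ 𝓑.filter (fun p => p ∉ primesLE y), p ∣ R' :=
        Finset.prod_primes_dvd _ (fun p hp => (hBp p hp).prime) hdvd
      have h2 : ((∏ p ∈ 𝓑.filter (fun p => p ∉ primesLE y), p : ℕ) : ℝ) ≤ R' := by
        exact_mod_cast Nat.le_of_dvd (Nat.pos_of_ne_zero hR'0) h1
      rw [← Real.log_prod (fun p hp => by exact_mod_cast (hBp p hp).ne_zero)]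
      refine Real.log_le_log (prod_pos fun p hp => by exact_mod_cast (hBp p hp).pos) ?_
      push_cast at h2
      exact h2
  refine ⟨z, hz0, hzsum, hFz, ?_, ?_⟩
  · rw [hht]
    have : 0 ≤ Real.log g := Real.log_natCast_nonneg g
    linarith
  · rw [hht]
    have h1 : Real.log R + k * G ≤ Real.log Cp := by
      have e1 : Real.log R = ∑ i ∈ range k, Real.log (c i - s i : ℕ) := by
        rw [hR, Nat.cast_prod, Real.log_prod]
        intro i hi
        have := hclt i (mem_range.mp hi)
        exact_mod_cast (by omega : c i - s i ≠ 0)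
      have e2 : Real.log Cp = ∑ i ∈ range k, Real.log (c i) := by
        rw [hCp, Nat.cast_prod, Real.log_prod]
        intro i hi
        exact_mod_cast hc0' i (mem_range.mp hi)
      have e3 : (k : ℝ) * G = ∑ i ∈ range k, G := by
        rw [sum_const, card_range, nsmul_eq_mul]
      rw [e1, e2, e3, ← sum_add_distrib]
      refine sum_le_sum fun i hi => ?_
      have := hG i (mem_range.mp hi)
      linarith
    have h2 : Real.log R = Real.log g + Real.log R' := by
      rw [hR', Nat.cast_mul, Real.log_mul hgR.ne' hR'R.ne']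
    linarith

end Pool.Agent.TH285.AB
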