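import Pool.Agent.H390R2.Assemble

/-!
# Smooth numbers that are close together, from short vectors

A version of `Pool.Agent.H390R2.exists_triple` which keeps the vector of exponents.
-/

set_option autoImplicit false

open Finset Nat

namespace Pool.Agent.TH285.AB

open Pool.Agent.H390R2

/-- From a short vector for every congruence to a short vector of exponents with a small value of
the logarithm, with a side condition. -/
theorem exists_vec {m N : ℕ} {lam : ℝ} (hN : 0 < N) (hlam : 0 < lam)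
    (P : ({p // p ∈ primesLE m} → ℤ) → Prop)
    (hlat : ∀ W : {p // p ∈ primesLE m} → ℤ, ∃ e : {p // p ∈ primesLE m} → ℤ, e ≠ 0 ∧ P e ∧
      (N : ℤ) ∣ ∑ i, W i * e i ∧ ∑ i : {p // p ∈ primesLE m}, |(e i : ℝ)| * Real.log (i : ℕ) ≤ lam) :
    ∃ e : {p // p ∈ primesLE m} → ℤ, e ≠ 0 ∧ P e ∧
      ∑ i : {p // p ∈ primesLE m}, |(e i : ℝ)| * Real.log (i : ℕ) ≤ lam ∧
      |∑ i : {p // p ∈ primesLE m}, (e i : ℝ) * Real.log (i : ℕ)| ≤
        lam * (lam + 1) / (N * Real.log 2) := by
  have hl2 : (0 : ℝ) < Real.log 2 := Real.log_pos one_lt_two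
  have hN' : (0 : ℝ) < N := by exact_mod_cast hN
  set M : ℝ := N / (lam + 1) with hM
  have hM0 : 0 < M := by positivity
  obtain ⟨e, he, hPe, hdvd, hsum⟩ := hlat fun p => ⌊M * Real.log (p : ℕ)⌋
  have hlogp : ∀ p : {p // p ∈ primesLE m}, Real.log 2 ≤ Real.log (p : ℕ) := fun p =>
    Real.log_le_log two_pos (by exact_mod_cast two_le_of_mem_primesLE p.2)
  -- the integer combination vanishes
  have hW : ∀ p : {p // p ∈ primesLE m},
      |((⌊M * Real.log (p : ℕ)⌋ : ℤ) : ℝ)| ≤ M * Real.log (p : ℕ) := by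
    intro p
    have h0 : 0 ≤ M * Real.log (p : ℕ) := by
      have := hlogp p
      have h1 : 0 ≤ Real.log (p : ℕ) := by linarith
      positivity
    rw [abs_of_nonneg (by exact_mod_cast Int.floor_nonneg.mpr h0)]
    exact Int.floor_le _
  have habs : |((∑ i : {p // p ∈ primesLE m}, ⌊M * Real.log (i : ℕ)⌋ * e i : ℤ) : ℝ)| < N := by
    push_cast
    calc |∑ i : {p // p ∈ primesLE m}, (⌊M * Real.log (i : ℕ)⌋ : ℝ) * (e i : ℝ)|
        ≤ ∑ i : {p // p ∈ primesLE m}, |(⌊M * Real.log (i : ℕ)⌋ : ℝ) * (e i : ℝ)| :=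
          Finset.abs_sum_le_sum_abs _ _
      _ ≤ ∑ i : {p // p ∈ primesLE m}, M * (|(e i : ℝ)| * Real.log (i : ℕ)) := by
          refine Finset.sum_le_sum fun i _ => ?_
          rw [abs_mul]
          have := mul_le_mul_of_nonneg_right (hW i) (abs_nonneg (e i : ℝ))
          linarith
      _ = M * ∑ i : {p // p ∈ primesLE m}, |(e i : ℝ)| * Real.log (i : ℕ) := by
          rw [Finset.mul_sum]
      _ ≤ M * lam := mul_le_mul_of_nonneg_left hsum hM0.le
      _ < M * (lam + 1) := by nlinarith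
      _ = N := by rw [hM]; field_simp
  have hzero : (∑ i : {p // p ∈ primesLE m}, ⌊M * Real.log (i : ℕ)⌋ * e i : ℤ) = 0 := by
    refine Int.eq_zero_of_abs_lt_dvd hdvd ?_
    exact_mod_cast habs
  set l : ℝ := ∑ p : {p // p ∈ primesLE m}, (e p : ℝ) * Real.log (p : ℕ) with hl
  have hMl : M * |l| ≤ lam / Real.log 2 := by
    have h1 : M * l = ∑ p : {p // p ∈ primesLE m},
        (M * Real.log (p : ℕ) - (⌊M * Real.log (p : ℕ)⌋ : ℤ)) * (e p : ℝ) := by
      have h2 : ∑ p : {p // p ∈ primesLE m}, ((⌊M * Real.log (p : ℕ)⌋ : ℤ) : ℝ) * (e p : ℝ) = 0 := by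
        have := congrArg (fun z : ℤ => (z : ℝ)) hzero
        push_cast at this
        exact this
      rw [hl, Finset.mul_sum]
      simp only [sub_mul]
      rw [Finset.sum_sub_distrib, h2, sub_zero]
      exact Finset.sum_congr rfl fun _ _ => by ring
    rw [← abs_of_pos hM0, ← abs_mul, h1]
    calc |∑ p : {p // p ∈ primesLE m},
        (M * Real.log (p : ℕ) - (⌊M * Real.log (p : ℕ)⌋ : ℤ)) * (e p : ℝ)|
        ≤ ∑ p : {p // p ∈ primesLE m},
          |(M * Real.log (p : ℕ) - (⌊M * Real.log (p : ℕ)⌋ : ℤ)) * (e p : ℝ)| :=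
          Finset.abs_sum_le_sum_abs _ _
      _ ≤ ∑ p : {p // p ∈ primesLE m}, (|(e p : ℝ)| * Real.log (p : ℕ)) / Real.log 2 := by
          refine Finset.sum_le_sum fun p _ => ?_
          rw [abs_mul]
          have h3 : |M * Real.log (p : ℕ) - (⌊M * Real.log (p : ℕ)⌋ : ℤ)| ≤ 1 := by
            rw [abs_of_nonneg (by linarith [Int.floor_le (M * Real.log (p : ℕ))])]
            linarith [Int.lt_floor_add_one (M * Real.log (p : ℕ))]
          have h4 : |(e p : ℝ)| ≤ |(e p : ℝ)| * Real.log (p : ℕ) / Real.log 2 := by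
            rw [le_div_iff₀ hl2]
            exact mul_le_mul_of_nonneg_left (hlogp p) (abs_nonneg _)
          have := mul_le_mul_of_nonneg_right h3 (abs_nonneg (e p : ℝ))
          linarith
      _ = (∑ p : {p // p ∈ primesLE m}, |(e p : ℝ)| * Real.log (p : ℕ)) / Real.log 2 := by
          rw [Finset.sum_div]
      _ ≤ lam / Real.log 2 := by gcongr
  have hl1 : |l| ≤ lam * (lam + 1) / (N * Real.log 2) := by
    rw [hM] at hMl
    rw [le_div_iff₀ (by positivity)] at hMl ⊢
    have h5 : N / (lam + 1) * |l| * Real.log 2 * (lam + 1) ≤ lam * (lam + 1) :=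
      mul_le_mul_of_nonneg_right hMl (by positivity)
    have h6 : N / (lam + 1) * |l| * Real.log 2 * (lam + 1) = |l| * (N * Real.log 2) := by
      field_simp
    linarith
  exact ⟨e, he, hPe, hsum, hl1⟩

/-- the two smooth numbers attached to a vector of exponents -/
theorem exists_pair {m : ℕ} (e : {p // p ∈ primesLE m} → ℤ) (he : e ≠ 0) :
    ∃ x y : ℕ, 0 < x ∧ x < y ∧ x.primeFactors ⊆ primesLE m ∧ y.primeFactors ⊆ primesLE m ∧
      Nat.Coprime x y ∧
      ((x = num e ∧ y = num (-e)) ∨ (x = num (-e) ∧ y = num e)) ∧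
      Real.log y = (∑ p : {p // p ∈ primesLE m}, |(e p : ℝ)| * Real.log (p : ℕ) +
        |∑ p : {p // p ∈ primesLE m}, (e p : ℝ) * Real.log (p : ℕ)|) / 2 ∧
      ((y - x : ℕ) : ℝ) ≤ y * |∑ p : {p // p ∈ primesLE m}, (e p : ℝ) * Real.log (p : ℕ)| := by
  set A := num e with hA
  set B := num (-e) with hB
  have hA0 : 0 < A := num_pos e
  have hB0 : 0 < B := num_pos (-e)
  have hAB : A ≠ B := num_ne e he
  have hcop : Nat.Coprime A B := num_coprime e
  have hlA := log_num e
  have hlB := log_num (-e)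
  rw [← hA] at hlA
  rw [← hB] at hlB
  have hsub : ∑ p : {p // p ∈ primesLE m}, (e p : ℝ) * Real.log (p : ℕ) = Real.log A - Real.log B := by
    rw [hlA, hlB, ← Finset.sum_sub_distrib]
    refine Finset.sum_congr rfl fun p _ => ?_
    rw [← sub_mul]
    congr 1
    have : (e p) = ((e p).toNat : ℤ) - ((-e) p).toNat := by
      simp only [Pi.neg_apply]; omega
    exact_mod_cast congrArg (fun z : ℤ => (z : ℝ)) this
  have hadd : ∑ p : {p // p ∈ primesLE m}, |(e p : ℝ)| * Real.log (p : ℕ) = Real.log A + Real.log B := by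
    rw [hlA, hlB, ← Finset.sum_add_distrib]
    refine Finset.sum_congr rfl fun p _ => ?_
    rw [← add_mul]
    congr 1
    have : |e p| = ((e p).toNat : ℤ) + ((-e) p).toNat := by
      simp only [Pi.neg_apply]
      rcases abs_cases (e p) with h | h <;> omega
    exact_mod_cast congrArg (fun z : ℤ => (z : ℝ)) this
  rw [hsub, hadd]
  have main : ∀ x y : ℕ, 0 < x → 0 < y → x < y →
      Real.log y = (Real.log y + Real.log x + |Real.log y - Real.log x|) / 2 ∧
      ((y - x : ℕ) : ℝ) ≤ y * |Real.log y - Real.log x| := by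
    intro x y hx hy hxy
    have hx' : (0 : ℝ) < x := by exact_mod_cast hx
    have hy' : (0 : ℝ) < y := by exact_mod_cast hy
    have hl : Real.log x < Real.log y := Real.log_lt_log hx' (by exact_mod_cast hxy)
    refine ⟨?_, ?_⟩
    · rw [abs_of_pos (by linarith)]; ring
    · rw [abs_of_pos (by linarith), Nat.cast_sub hxy.le]
      have h5 := Real.add_one_le_exp (Real.log x - Real.log y)
      rw [Real.exp_sub, Real.exp_log hx', Real.exp_log hy'] at h5
      have h6 : (y : ℝ) * (x / y) = x := by field_simp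
      nlinarith
  rcases lt_or_gt_of_ne hAB with h | h
  · obtain ⟨h2, h3⟩ := main A B hA0 hB0 h
    refine ⟨A, B, hA0, h, num_primeFactors e, num_primeFactors (-e), hcop, Or.inl ⟨rfl, rfl⟩, ?_, ?_⟩
    · rw [abs_sub_comm, add_comm (Real.log A)]; exact h2
    · rw [abs_sub_comm]; exact h3
  · obtain ⟨h2, h3⟩ := main B A hB0 hA0 h
    exact ⟨B, A, hB0, h, num_primeFactors (-e), num_primeFactors e, hcop.symm, Or.inr ⟨rfl, rfl⟩,
      h2, h3⟩

end Pool.Agent.TH285.AB
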